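import Pool.Agent.Y354.DC3.Stm

/-!
# `S_CR`: a vertex which is not allowed has at most two critical positions
-/

set_option autoImplicit false

open Finset
open scoped Classical

namespace Pool.Agent.Y153.DC3

open Pool.Agent.Y354.DC3

theorem s_cr : S_AL → S_CR := by
  intro hAL V N hN k x u
  by_cases hu : Al N x u
  · have h0 : univ.filter (fun i : Fin (k + 1) => Al N (rm x i) u ∧ Ad N (rm x i) (x i) u) = ∅ := by
      rw [Finset.filter_eq_empty_iff]
      rintro i - ⟨-, h2⟩
      exact (((hAL V N hN k i x).2.1 u).1 hu).2 h2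
    rw [h0, Finset.card_empty]
    unfold I
    rw [if_pos hu]
    norm_num
  · have hu' := hu
    unfold Al at hu'
    push Not at hu'
    obtain ⟨a, b, hab, hN'⟩ := hu'
    have h1 : univ.filter (fun i : Fin (k + 1) => Al N (rm x i) u ∧ Ad N (rm x i) (x i) u) ⊆
        {a, b} := by
      intro i hi
      rw [Finset.mem_filter] at hi
      obtain ⟨-, h2, -⟩ := hi
      rw [Finset.mem_insert, Finset.mem_singleton]
      by_contra hcon
      rw [not_or] at hcon
      obtain ⟨h3, h4⟩ := hcon
      obtain ⟨a', rfl⟩ := Fin.exists_succAbove_eq (Ne.symm h3)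
      obtain ⟨b', rfl⟩ := Fin.exists_succAbove_eq (Ne.symm h4)
      exact h2 a' b' (fun h => hab (by rw [h])) hN'
    have h2 : (univ.filter (fun i : Fin (k + 1) =>
        Al N (rm x i) u ∧ Ad N (rm x i) (x i) u)).card ≤ 2 :=
      (Finset.card_le_card h1).trans (Finset.card_le_two)
    have h3 : ((univ.filter (fun i : Fin (k + 1) =>
        Al N (rm x i) u ∧ Ad N (rm x i) (x i) u)).card : ℝ) ≤ 2 := by exact_mod_cast h2
    unfold I
    rw [if_neg hu]
    linarith

end Pool.Agent.Y153.DC3
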